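import Pool.Agent.L5helper66.BS.One

/-!
# The conjecture of Beilinson and Soulé: one degree is enough

`H k j` is the functor `X ↦ H^k(X, ℚ(j))` on schemes, i.e. the rational motivic cohomology
(`CH^j(X, 2 j - k) ⊗ ℚ` for smooth `X`), with the properties listed in `IsMotivicCohomology`.
-/

set_option autoImplicit false

open CategoryTheory AlgebraicGeometry Opposite Pool.Agent.L5helper68.BS Pool.Agent.L5helper66.BS

namespace Pool.Agent.Results.MP_d72c81_ag.OneDegree

/-- **One degree.** (1) The following are equivalent: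

* `H^k(X, ℚ(j)) = 0` for all smooth projective complex varieties `X`, all `k < 0` and all `j`;
* the same for all smooth separated schemes of finite type over all fields of characteristic zero;
* `H^{-1}(Spec ℂ, ℚ(j)) = 0` for all `j ≥ 2`;
* `H^0(ℚ(t_1, t_2, …), ℚ(j)) = 0` for all `j ≥ 3`;
* `H^0(U, ℚ(j)) = 0` for all `j > 0` and all the open subvarieties `U = {t : det M(t) ≠ 0}` of affine
  spaces over `ℚ`, where all entries of the matrix `M(t)` are `0`, `1`, `-1` or variables.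

(2) For every `c > 0` the following are equivalent: `H^{-1}(Spec ℂ, ℚ(c - 1)) = 0`;
`H^0(ℚ(t_1, t_2, …), ℚ(c)) = 0`; `H^{-s}(F, ℚ(c - s)) = 0` for all `s ≥ 1` and all fields `F` of
characteristic zero.

(3) If `k < 0` and `H^{-1}(Spec ℂ, ℚ(w)) = 0` for the `w ≥ 2` with `j - k - 1 ≤ w ≤ 2 j - k - 3`, then
`H^k(X, ℚ(j)) = 0` for all smooth separated schemes `X` of finite type over fields of characteristic
zero. -/
theorem result {H : ℤ → ℤ → Scheme.{0}ᵒᵖ ⥤ AddCommGrpCat.{0}} (hH : IsMotivicCohomology H) :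
    List.TFAE [
      ∀ J : ℤ, BSProjective H J,
      ∀ J : ℤ, BSSmooth H J,
      ∀ j : ℤ, 2 ≤ j → Zero H (-1) j (Sp ℂ),
      ∀ j : ℤ, 3 ≤ j → Zero H 0 j (Sp QInf),
      ZeroOnSections H] ∧
    (∀ c : ℤ, 0 < c → List.TFAE [
      Zero H (-1) (c - 1) (Sp ℂ),
      Zero H 0 c (Sp QInf),
      ∀ s : ℕ, 1 ≤ s → ∀ (F : Type) [Field F] [CharZero F], Zero H (-(s : ℤ)) (c - s) (Sp F)]) ∧
    ∀ k j : ℤ, k < 0 →
      (∀ w : ℤ, 2 ≤ w → j - k - 1 ≤ w → w ≤ 2 * j - k - 3 → Zero H (-1) w (Sp ℂ)) →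
      ∀ (F : Type) [Field F] [CharZero F] (X : Over (Sp F)), Smooth X.hom → QuasiCompact X.hom →
        IsSeparated X.hom → Zero H k j X.left :=
  ⟨one_degree hH, fun c hc => diag_tfae hH c hc,
    fun k j hk h F _ _ X h1 h2 h3 => smooth_bound hH k j hk h F X h1 h2 h3⟩

end Pool.Agent.Results.MP_d72c81_ag.OneDegree
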