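import Pool.Agent.L5helper73.PC.Fin

/-!
# The conjecture of Beilinson and Soulé and spaces of configurations of points in the plane

`H k j` is the functor `X ↦ H^k(X, ℚ(j))` on schemes, i.e. the rational motivic cohomology
(`CH^j(X, 2 j - k) ⊗ ℚ` for smooth `X`), with the properties listed in `IsMotivicCohomology` and
`Spreads`. `stratum n D` is the space over `ℚ` of the `n × 3` matrices whose minor with the rows
`i`, `j`, `k` is zero for the triples `(i, j, k)` in `D` and invertible for all other triples
(`n` points of the projective plane with prescribed collinearities, and vectors over them).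
-/

set_option autoImplicit false

open CategoryTheory AlgebraicGeometry Opposite Pool.Agent.L5helper68.BS Pool.Agent.L5helper73.PC

namespace Pool.Agent.Results.MP_d72c81_ag.PointConfigurations

/-- **Point configurations in the plane.** (1) For every `J`: `H^k(X, ℚ(j)) = 0` for all smooth
projective complex varieties `X`, all `k < 0` and all `j ≤ J` if and only if this is true for all the
spaces `stratum n D` which are smooth over `ℚ`.

(2) The conjecture of Beilinson and Soulé (all weights) is true if and only if
`H^{-1}(stratum n D, ℚ(j)) = 0` for all `j ≥ 2` and all the smooth `stratum n D`.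

(3) Let `k`, `j` be such that `H^k(stratum n D, ℚ(j)) = 0` for all the smooth `stratum n D`. Then
`H^k(F, ℚ(j)) = 0` for all fields `F` of characteristic zero.

(4) Let `c ≥ 0` be such that `H^{-1}(stratum n D, ℚ(c)) = 0` for all the smooth `stratum n D`. Then
`H^{-s}(F, ℚ(c + 1 - s)) = 0` for all `s ≥ 1` and all fields `F` of characteristic zero. -/
theorem result {H : ℤ → ℤ → Scheme.{0}ᵒᵖ ⥤ AddCommGrpCat.{0}} (hH : IsMotivicCohomology H)
    (hs : Spreads H) :
    (∀ J : ℤ, BSProjective H J ↔ ∀ k j : ℤ, k < 0 → j ≤ J → ZeroOnStrata H k j) ∧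
    ((∀ J : ℤ, BSProjective H J) ↔ ∀ j : ℤ, 2 ≤ j → ZeroOnStrata H (-1) j) ∧
    (∀ k j : ℤ, ZeroOnStrata H k j → ∀ (F : Type) [Field F] [CharZero F], Zero H k j (Sp F)) ∧
    ∀ c : ℤ, 0 ≤ c → ZeroOnStrata H (-1) c →
      ∀ s : ℕ, 1 ≤ s → ∀ (F : Type) [Field F] [CharZero F], Zero H (-(s : ℤ)) (c + 1 - s) (Sp F) :=
  ⟨each_weight hH hs, one_degree_conf hH hs, fun _ _ h F _ _ => zero_field hs h F,
    fun c hc h s hs1 F _ _ => diag_conf hH hs c hc h s hs1 F⟩

end Pool.Agent.Results.MP_d72c81_ag.PointConfigurations
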