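import Pool.Agent.L5helper68.BS.Main

/-!
# The conjecture of Beilinson and Soulé: one rational function field, linear sections of `GL_N`

`H k j` is the functor `X ↦ H^k(X, ℚ(j))` on schemes, i.e. the rational motivic cohomology
(`CH^j(X, 2 j - k) ⊗ ℚ` for smooth `X`), with the properties listed in `IsMotivicCohomology`.
-/

set_option autoImplicit false

open CategoryTheory AlgebraicGeometry Opposite Pool.Agent.L5helper68.BS

namespace Pool.Agent.Results.MP_d72c81_ag.RationalFunctionFields

/-- **The conjecture of Beilinson and Soulé.** For every `J` the following are equivalent: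

1. `H^k(X, ℚ(j)) = 0` for all smooth projective complex varieties `X`, all `k < 0` and `j ≤ J`;
2. the same for the point `X = Spec ℂ`;
3. the same for all smooth separated schemes of finite type over all fields of characteristic zero;
4. `H^k(ℚ(t_1, t_2, …), ℚ(j)) = 0` for all `k ≤ 0` and `0 < j ≤ J + 1`;
5. `H^k(U, ℚ(j)) = 0` for all `k ≤ 0` and `0 < j ≤ J + 1`, for the open subvarieties
   `U = {t : det M(t) ≠ 0}` of the affine spaces over `ℚ`, where all entries of the matrix `M(t)` are
   `0`, `1`, `-1` or variables (these are linear sections of `GL_N`).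

All this is true for `J = 1`: `H^k(U, ℚ(j)) = 0` for `k ≤ 0` and `0 < j ≤ 2`. -/
theorem result {H : ℤ → ℤ → Scheme.{0}ᵒᵖ ⥤ AddCommGrpCat.{0}} (hH : IsMotivicCohomology H) :
    (∀ J : ℤ, List.TFAE [
      BSProjective H J,
      ∀ k j : ℤ, k < 0 → j ≤ J → Zero H k j (Sp ℂ),
      BSSmooth H J,
      ∀ k j : ℤ, k ≤ 0 → 0 < j → j ≤ J + 1 → Zero H k j (Sp QInf),
      BSSections H (J + 1)]) ∧ BSSections H 2 :=
  ⟨fun J => main hH J, weight_two hH⟩

end Pool.Agent.Results.MP_d72c81_ag.RationalFunctionFields
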