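import Pool.Agent.L5helper73.ZO.Law

/-!
# The conjecture of Beilinson and Soulé: a zero-one law

`H k j` is the functor `X ↦ H^k(X, ℚ(j))` on schemes, i.e. the rational motivic cohomology
(`CH^j(X, 2 j - k) ⊗ ℚ` for smooth `X`), with the properties listed in `IsMotivicCohomology`,
`BorelVanishing` (Borel's theorem for all number fields), `Spreads` and `SpreadsZero` (the cohomology of
a field is the direct limit of the cohomology of its finitely generated subrings).
`push H k j φ : H^k(Spec A, ℚ(j)) → H^k(Spec B, ℚ(j))` is induced by the homomorphism `φ : A → B`.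
-/

set_option autoImplicit false

open CategoryTheory AlgebraicGeometry Opposite Pool.Agent.L5helper68 Pool.Agent.L5helper73.PC
  Pool.Agent.L5helper73.ZO
open Pool.Agent.L5helper68.BS hiding Zero

namespace Pool.Agent.Results.MP_d72c81_ag.ZeroOneLaw

/-- **Zero-one law.** (1) Let `k ≤ 0 < j`. For every class `z` in `H^k(Spec ℂ, ℚ(j))` there are
automorphisms `σ x` of the field `ℂ`, `x ∈ ℝ`, such that the classes `σ x z` are independent: if
`∑ x ∈ s, a x • σ x z = 0` with integers `a x` and a finite set `s`, then `a x • z = 0` for all `x ∈ s`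
(`ManyTranslates`).

(2) So for `k ≤ 0 < j` the group `H^k(Spec ℂ, ℚ(j))` is zero or has at least continuum many elements
(`Few`: less than continuum many elements).

(3) For every `J` the following are equivalent: `H^k(X, ℚ(j)) = 0` for all smooth projective complex
varieties `X`, all `k < 0` and `j ≤ J`; all these groups have less than continuum many elements; the
same for `X = Spec ℂ` only.

(4) The conjecture of Beilinson and Soulé (all weights) is true if and only if the groups
`H^{-1}(Spec ℂ, ℚ(j))`, `j ≥ 2`, have less than continuum many elements. -/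
theorem result {H : ℤ → ℤ → Scheme.{0}ᵒᵖ ⥤ AddCommGrpCat.{0}} (hH : IsMotivicCohomology H)
    (hs : Spreads H) (h0 : SpreadsZero H) (hb : BorelVanishing H) :
    (∀ k j : ℤ, k ≤ 0 → 0 < j → ManyTranslates H k j) ∧
    (∀ k j : ℤ, k ≤ 0 → 0 < j → BS.Zero H k j (Sp ℂ) ∨ ¬ Few H k j (Sp ℂ)) ∧
    (∀ J : ℤ, List.TFAE [
      BSProjective H J,
      FewProjective H J,
      ∀ k j : ℤ, k < 0 → j ≤ J → Few H k j (Sp ℂ)]) ∧
    ((∀ J : ℤ, BSProjective H J) ↔ ∀ j : ℤ, 2 ≤ j → Few H (-1) j (Sp ℂ)) :=
  ⟨fun _ _ hk hj z => independent hH hs h0 hb hk hj z,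
    fun _ _ hk hj => (zero_or_continuum hH hs h0 hb hk hj).imp id not_lt.2,
    few_each hH hs h0 hb, few_one hH hs h0 hb⟩

end Pool.Agent.Results.MP_d72c81_ag.ZeroOneLaw
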